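import Pool.Agent.H960R2.VB.Main2

/-!
# Grothendieck's theorem for rank two bundles on the projective line, in the concrete terms of
`H960VB.Bundle2`
-/

set_option autoImplicit false

open MvPolynomial

namespace Pool.Agent.H106R3.VB

open H960VB H960VB.TaskC2

/-- the base point `(0, 1)`. -/
def e1 : Fin 2 → ℂ := ![0, 1]

theorem e1_ne : e1 ≠ 0 := by
  intro h
  have := congrFun h 1
  simp [e1] at this

theorem eval_smul_hom {σ : Type*} {p : MvPolynomial σ ℂ} {k : ℕ} (hp : p.IsHomogeneous k)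
    (c : ℂ) (v : σ → ℂ) : eval (c • v) p = c ^ k * eval v p := by
  rw [eval_eq, eval_eq, Finset.mul_sum]
  refine Finset.sum_congr rfl fun d hd => ?_
  have h1 : d.degree = k := by
    have := hp (mem_support_iff.1 hd)
    rw [Finsupp.degree_eq_weight_one]; exact this
  simp only [Pi.smul_apply, smul_eq_mul, mul_pow, Finset.prod_mul_distrib]
  rw [Finset.prod_pow_eq_pow_sum]
  have h2 : ∑ i ∈ d.support, d i = k := by rw [← h1]; rfl
  rw [h2]
  ring

theorem exists_equiv (z : Fin 2 → ℂ) (hz : z ≠ 0) :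
    ∃ T : (Fin 2 → ℂ) ≃ₗ[ℂ] (Fin 2 → ℂ), T e1 = z := by
  obtain ⟨T, hT⟩ := exists_move (n := 1) z hz
  obtain ⟨T', hT'⟩ := exists_move (n := 1) e1 e1_ne
  refine ⟨T'.symm.trans T, ?_⟩
  rw [LinearEquiv.trans_apply, ← hT', LinearEquiv.symm_apply_apply, hT]

/-- the linear form of a point of the projective line. -/
theorem dvd_at (z : Fin 2 → ℂ) (hz : z ≠ 0) :
    ∃ l : MvPolynomial (Fin 2) ℂ, l ≠ 0 ∧ l.IsHomogeneous 1 ∧
      ∀ (p : MvPolynomial (Fin 2) ℂ) (d : ℤ), HomZ p d → eval z p = 0 →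
        ∃ q, p = l * q ∧ HomZ q (d - 1) := by
  obtain ⟨T, hT⟩ := exists_equiv z hz
  have hTT : ∀ p : MvPolynomial (Fin 2) ℂ,
      lsub (m := 1) (n := 1) T.symm.toLinearMap (lsub (m := 1) (n := 1) T.toLinearMap p) = p := by
    intro p
    apply MvPolynomial.funext
    intro x
    rw [eval_lsub, eval_lsub]
    simp
  have hTT' : ∀ p : MvPolynomial (Fin 2) ℂ,
      lsub (m := 1) (n := 1) T.toLinearMap (lsub (m := 1) (n := 1) T.symm.toLinearMap p) = p := by
    intro p
    apply MvPolynomial.funext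
    intro x
    rw [eval_lsub, eval_lsub]
    simp
  set l : MvPolynomial (Fin 2) ℂ := lsub (m := 1) (n := 1) T.symm.toLinearMap (X 0) with hl
  have hl0 : l ≠ 0 := by
    intro h
    have h1 := hTT' (X 0)
    rw [← hl, h, map_zero] at h1
    exact X_ne_zero _ h1.symm
  have hl1 : l.IsHomogeneous 1 := by
    rcases homZ_lsub (m := 1) (n := 1) T.symm.toLinearMap
      (p := X 0) (d := 1) (Or.inr ⟨1, rfl, isHomogeneous_X ℂ _⟩) with h | ⟨k, hk, h⟩
    · exact absurd h hl0
    · have : k = 1 := by exact_mod_cast hk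
      subst this
      exact h
  refine ⟨l, hl0, hl1, fun p d hp hpz => ?_⟩
  rcases hp with rfl | ⟨k, hk, hp⟩
  · exact ⟨0, by simp, Or.inl rfl⟩
  by_cases hp0 : p = 0
  · subst hp0
    exact ⟨0, by simp, Or.inl rfl⟩
  have hp' : (lsub (m := 1) (n := 1) T.toLinearMap p).IsHomogeneous k := by
    rcases homZ_lsub (m := 1) (n := 1) T.toLinearMap
      (p := p) (d := (k : ℤ)) (Or.inr ⟨k, rfl, hp⟩) with h | ⟨k', hk', h⟩
    · rw [h]; exact isHomogeneous_zero _ _ _
    · have : k' = k := by exact_mod_cast hk'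
      subst this
      exact h
  have hz' : eval e1 (lsub (m := 1) (n := 1) T.toLinearMap p) = 0 := by
    rw [eval_lsub]
    have : T.toLinearMap e1 = z := hT
    rw [this, hpz]
  have hdvd : X 0 ∣ lsub (m := 1) (n := 1) T.toLinearMap p := by
    apply h2_X_dvd
    apply MvPolynomial.funext
    intro x
    rw [eval_lsub, map_zero]
    have h1 : (Bundle2.hyp 0 x : Fin 2 → ℂ) = x 0 • e1 := by
      ext i
      fin_cases i
      · simp [Bundle2.hyp, e1]
      · simp [Bundle2.hyp, e1]
    rw [h1, eval_smul_hom hp', hz', mul_zero]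
  obtain ⟨q', hq'⟩ := hdvd
  have hpq : p = l * lsub (m := 1) (n := 1) T.symm.toLinearMap q' := by
    rw [hl, ← map_mul, ← hq', hTT]
  refine ⟨_, hpq, ?_⟩
  have h1 : (l * lsub (m := 1) (n := 1) T.symm.toLinearMap q').IsHomogeneous k := by
    rw [← hpq]; exact hp
  obtain ⟨a, b, hab, ha, hb⟩ := hom_of_mul h1 (by rw [← hpq]; exact hp0)
  have ha1 : a = 1 := ha.inj_right hl1 hl0
  refine Or.inr ⟨b, ?_, hb⟩
  rw [← hk]
  omega

/-- kernel as a polynomial identity -/
theorem fib_iff (F : Bundle2 1) (g : Fin F.a → MvPolynomial (Fin 2) ℂ) :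
    (∀ x : Fin 2 → ℂ, x ≠ 0 → evv g x ∈ F.fib x) ↔ ∀ k, ∑ i, F.B k i * g i = 0 := by
  have key : ∀ x : Fin 2 → ℂ, evv g x ∈ F.fib x ↔ ∀ k, eval x (∑ i, F.B k i * g i) = 0 := by
    intro x
    have h1 : evv g x ∈ F.fib x ↔ (evm F.B x).mulVec (evv g x) = 0 := Iff.rfl
    rw [h1]
    constructor
    · intro h k
      have h2 := congrFun h k
      simp only [Matrix.mulVec, dotProduct, Pi.zero_apply] at h2
      rw [map_sum]
      simpa [evm, evv] using h2
    · intro h
      funext k
      have h2 := h k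
      rw [map_sum] at h2
      simpa [Matrix.mulVec, dotProduct, evm, evv] using h2
  constructor
  · intro h k
    apply ext_off_zero (N := 2) (by omega)
    intro x hx
    rw [map_zero]
    exact (key x).1 (h x hx) k
  · intro h x _
    refine (key x).2 fun k => ?_
    rw [h k, map_zero]

/-- a pair of homogeneous kernel vectors of twists `p`, `q` that is generically independent -/
def Pr (F : Bundle2 1) (p q : ℤ) : Prop :=
  ∃ g₁ g₂ : Fin F.a → MvPolynomial (Fin 2) ℂ,
    (∀ i, HomZ (g₁ i) (F.β i - p)) ∧ (∀ i, HomZ (g₂ i) (F.β i - q)) ∧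
    (∀ k, ∑ i, F.B k i * g₁ i = 0) ∧ (∀ k, ∑ i, F.B k i * g₂ i = 0) ∧
    ∃ z : Fin 2 → ℂ, z ≠ 0 ∧ LinearIndependent ℂ ![evv g₁ z, evv g₂ z]

theorem Pr.symm {F : Bundle2 1} {p q : ℤ} (h : Pr F p q) : Pr F q p := by
  obtain ⟨g₁, g₂, h1, h2, h3, h4, z, hz, h5⟩ := h
  refine ⟨g₂, g₁, h2, h1, h4, h3, z, hz, ?_⟩
  rw [LinearIndependent.pair_iff] at h5 ⊢
  intro s t hst
  have := h5 t s (by rw [add_comm]; exact hst)
  exact ⟨this.2, this.1⟩

/-- improvement of a pair: if `g₂ + h g₁` vanishes at a point, divide. -/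
theorem improve {F : Bundle2 1} {p q : ℤ} {g₁ g₂ : Fin F.a → MvPolynomial (Fin 2) ℂ}
    (h1 : ∀ i, HomZ (g₁ i) (F.β i - p)) (_h2 : ∀ i, HomZ (g₂ i) (F.β i - q))
    (k1 : ∀ k, ∑ i, F.B k i * g₁ i = 0) (k2 : ∀ k, ∑ i, F.B k i * g₂ i = 0)
    (hz : ∃ z : Fin 2 → ℂ, z ≠ 0 ∧ LinearIndependent ℂ ![evv g₁ z, evv g₂ z])
    (h : MvPolynomial (Fin 2) ℂ) (w : Fin 2 → ℂ) (hw : w ≠ 0)
    (hh : ∀ i, HomZ (g₂ i + h * g₁ i) (F.β i - q))
    (hv : ∀ i, eval w (g₂ i + h * g₁ i) = 0) : Pr F p (q + 1) := by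
  obtain ⟨l, hl0, hl1, hl⟩ := dvd_at w hw
  choose g hg1 hg2 using fun i => hl _ _ (hh i) (hv i)
  refine ⟨g₁, g, h1, fun i => ?_, k1, fun k => ?_, ?_⟩
  · have := hg2 i
    rwa [show F.β i - (q + 1) = F.β i - q - 1 by ring]
  · have e : l * ∑ i, F.B k i * g i = 0 := by
      rw [Finset.mul_sum]
      have e2 : ∀ i, l * (F.B k i * g i) = F.B k i * g₂ i + h * (F.B k i * g₁ i) := by
        intro i
        have := hg1 i
        calc l * (F.B k i * g i) = F.B k i * (l * g i) := by ring
          _ = F.B k i * (g₂ i + h * g₁ i) := by rw [← this]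
          _ = _ := by ring
      rw [Finset.sum_congr rfl fun i _ => e2 i, Finset.sum_add_distrib, ← Finset.mul_sum, k1 k,
        k2 k, mul_zero, add_zero]
    rcases mul_eq_zero.1 e with h | h
    · exact absurd h hl0
    · exact h
  · obtain ⟨z, hz0, hli⟩ := hz
    refine ⟨z, hz0, ?_⟩
    rw [LinearIndependent.pair_iff] at hli ⊢
    have hrel : ∀ i, eval z l * evv g z i = evv g₂ z i + eval z h * evv g₁ z i := by
      intro i
      have := congrArg (eval z) (hg1 i)
      simpa [evv] using this.symm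
    have hlz : eval z l ≠ 0 := by
      intro h0
      have := hli (eval z h) 1 (by
        funext i
        have := hrel i
        rw [h0, zero_mul] at this
        simp only [Pi.add_apply, Pi.smul_apply, smul_eq_mul, one_mul, Pi.zero_apply]
        rw [add_comm]
        exact this.symm)
      exact one_ne_zero this.2
    intro s t hst
    have h5 := hli (s * eval z l + t * eval z h) t (by
      funext i
      have e1 := congrFun hst i
      have e2 := hrel i
      simp only [Pi.add_apply, Pi.smul_apply, smul_eq_mul, Pi.zero_apply] at e1 ⊢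
      linear_combination (eval z l) * e1 - t * e2)
    refine ⟨?_, h5.2⟩
    have h6 := h5.1
    rw [h5.2, zero_mul, add_zero] at h6
    rcases mul_eq_zero.1 h6 with h | h
    · exact h
    · exact absurd h hlz

theorem HomZ.add'' {σ : Type*} {p q : MvPolynomial σ ℂ} {d : ℤ} (hp : HomZ p d) (hq : HomZ q d) :
    HomZ (p + q) d := HomZ.add' hp hq

/-- Grothendieck's theorem (rank two). -/
theorem grothendieck (F : Bundle2 1) :
    ∃ (p q : ℤ) (g₁ g₂ : Fin F.a → MvPolynomial (Fin 2) ℂ),
      (∀ i, HomZ (g₁ i) (F.β i - p)) ∧ (∀ i, HomZ (g₂ i) (F.β i - q)) ∧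
      ∀ z : Fin 2 → ℂ, z ≠ 0 → evv g₁ z ∈ F.fib z ∧ evv g₂ z ∈ F.fib z ∧
        LinearIndependent ℂ ![evv g₁ z, evv g₂ z] := by
  classical
  -- existence of a pair
  obtain ⟨m, α, K, hK1, hK2, hK3⟩ := kernel_family F.β F.γ F.B F.hom F.rank_two
  have hKk : ∀ s k, ∑ i, F.B k i * K s i = 0 := by
    intro s
    exact (fib_iff F (K s)).1 (fun x hx => hK2 x hx s)
  have hex : ∃ p q, Pr F p q := by
    have h3 := hK3 e1 e1_ne
    have hfr := F.rank_two e1 e1_ne
    by_contra hcon
    push Not at hcon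
    have hdep : ∀ s t, ¬ LinearIndependent ℂ ![evv (K s) e1, evv (K t) e1] := by
      intro s t hli
      exact hcon (α s) (α t) ⟨K s, K t, hK1 s, hK1 t, hKk s, hKk t, e1, e1_ne, hli⟩
    have hle : Module.finrank ℂ (Submodule.span ℂ (Set.range fun s => evv (K s) e1)) ≤ 1 := by
      by_cases hall : ∀ s, evv (K s) e1 = 0
      · have : Submodule.span ℂ (Set.range fun s => evv (K s) e1) = ⊥ := by
          rw [Submodule.span_eq_bot]
          rintro _ ⟨s, rfl⟩
          exact hall s
        rw [this, finrank_bot]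
        omega
      · push Not at hall
        obtain ⟨s, hs⟩ := hall
        have hsub : Submodule.span ℂ (Set.range fun s => evv (K s) e1) ≤
            Submodule.span ℂ {evv (K s) e1} := by
          rw [Submodule.span_le]
          rintro _ ⟨t, rfl⟩
          have h4 := hdep s t
          rw [LinearIndependent.pair_iff] at h4
          push Not at h4
          obtain ⟨c, d, hcd, hne⟩ := h4
          by_cases hd : d = 0
          · subst hd
            by_cases hc : c = 0
            · exact absurd rfl (hne hc)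
            · simp only [zero_smul, add_zero] at hcd
              rcases smul_eq_zero.1 hcd with h | h
              · exact absurd h hc
              · exact absurd h hs
          · change evv (K t) e1 ∈ Submodule.span ℂ {evv (K s) e1}
            rw [Submodule.mem_span_singleton]
            refine ⟨-(d⁻¹ * c), ?_⟩
            have h6 : d • evv (K t) e1 = -(c • evv (K s) e1) := by
              rw [eq_neg_iff_add_eq_zero, add_comm]; exact hcd
            have h7 : evv (K t) e1 = d⁻¹ • (d • evv (K t) e1) := by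
              rw [smul_smul, inv_mul_cancel₀ hd, one_smul]
            rw [h7, h6, smul_neg, smul_smul, neg_smul]
        calc _ ≤ Module.finrank ℂ (Submodule.span ℂ {evv (K s) e1}) :=
              Submodule.finrank_mono hsub
          _ ≤ 1 := by
            have := finrank_span_le_card (R := ℂ) ({evv (K s) e1} : Set (Fin F.a → ℂ))
            simpa using this
    have h8 : Module.finrank ℂ (Submodule.span ℂ (Set.range fun s => evv (K s) e1)) = 2 := by
      rw [h3]; exact hfr
    omega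
  -- boundedness
  obtain ⟨M, hM⟩ : ∃ M : ℤ, ∀ i, F.β i ≤ M :=
    ⟨∑ i, |F.β i|, fun i => (le_abs_self _).trans
      (Finset.single_le_sum (f := fun i => |F.β i|) (fun _ _ => abs_nonneg _) (Finset.mem_univ i))⟩
  have hbd1 : ∀ (p : ℤ) (g : Fin F.a → MvPolynomial (Fin 2) ℂ), (∀ i, HomZ (g i) (F.β i - p)) →
      ∀ z : Fin 2 → ℂ, evv g z ≠ 0 → p ≤ M := by
    intro p g hg z hz
    obtain ⟨i, hi⟩ := Function.ne_iff.1 hz
    rcases hg i with h | ⟨k, hk, _⟩
    · exact absurd (by simp [evv, h]) hi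
    · have := hM i
      omega
  have hbd : ∀ p q, Pr F p q → p + q ≤ M + M := by
    rintro p q ⟨g₁, g₂, h1, h2, -, -, z, hz, hli⟩
    have a1 := hli.ne_zero 0
    have a2 := hli.ne_zero 1
    have b1 := hbd1 p g₁ h1 z (by simpa using a1)
    have b2 := hbd1 q g₂ h2 z (by simpa using a2)
    omega
  obtain ⟨s, ⟨p, q, hs, hpr⟩, hmax⟩ := Int.exists_greatest_of_bdd
    (P := fun s => ∃ p q, p + q = s ∧ Pr F p q)
    ⟨M + M, by rintro s ⟨p, q, rfl, h⟩; exact hbd p q h⟩
    (by obtain ⟨p, q, h⟩ := hex; exact ⟨_, p, q, rfl, h⟩)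
  have hmax' : ∀ p' q', Pr F p' q' → p' + q' ≤ p + q := by
    intro p' q' h
    rw [hs]
    exact hmax _ ⟨p', q', rfl, h⟩
  -- normal form `q ≤ p`
  have hwlog : ∃ p q, q ≤ p ∧ Pr F p q ∧ ∀ p' q', Pr F p' q' → p' + q' ≤ p + q := by
    rcases le_total q p with h | h
    · exact ⟨p, q, h, hpr, hmax'⟩
    · exact ⟨q, p, h, hpr.symm, fun p' q' h' => by have := hmax' p' q' h'; omega⟩
  clear hmax' hmax hs hpr
  obtain ⟨p, q, hqp, ⟨g₁, g₂, h1, h2, k1, k2, hz⟩, hmax⟩ := hwlog
  refine ⟨p, q, g₁, g₂, h1, h2, fun w hw => ⟨(fib_iff F g₁).2 k1 w hw, (fib_iff F g₂).2 k2 w hw, ?_⟩⟩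
  by_contra hdep
  rw [LinearIndependent.pair_iff] at hdep
  push Not at hdep
  obtain ⟨c, d, hcd, hne⟩ := hdep
  by_cases hd : d = 0
  · have hc : c ≠ 0 := fun hc => hne hc hd
    rw [hd, zero_smul, add_zero] at hcd
    have hv : evv g₁ w = 0 := by
      rcases smul_eq_zero.1 hcd with h | h
      · exact absurd h hc
      · exact h
    -- divide `g₁`
    have hz' : ∃ z : Fin 2 → ℂ, z ≠ 0 ∧ LinearIndependent ℂ ![evv g₂ z, evv g₁ z] := by
      obtain ⟨z, hz0, hli⟩ := hz
      refine ⟨z, hz0, ?_⟩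
      rw [LinearIndependent.pair_iff] at hli ⊢
      intro s t hst
      have := hli t s (by rw [add_comm]; exact hst)
      exact ⟨this.2, this.1⟩
    have := improve (F := F) (p := q) (q := p) h2 h1 k2 k1 hz' 0 w hw
      (fun i => by simpa using h1 i) (fun i => by simpa [evv] using congrFun hv i)
    have := hmax _ _ this
    omega
  · -- `g₂ + h g₁` vanishes at `w`
    obtain ⟨i₀, hi₀⟩ := Function.ne_iff.1 hw
    rw [Pi.zero_apply] at hi₀
    obtain ⟨k, hk⟩ : ∃ k : ℕ, (k : ℤ) = p - q := ⟨(p - q).toNat, by omega⟩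
    set h : MvPolynomial (Fin 2) ℂ := C ((c / d) / (w i₀) ^ k) * X i₀ ^ k with hh
    have hhom : h.IsHomogeneous k := by
      have e1 := (isHomogeneous_C (Fin 2) ((c / d) / (w i₀) ^ k)).mul
        ((isHomogeneous_X ℂ i₀).pow k)
      simpa using e1
    have hev : eval w h = c / d := by
      rw [hh]
      simp only [map_mul, eval_C, map_pow, eval_X]
      field_simp
    have := improve (F := F) h1 h2 k1 k2 hz h w hw
      (fun i => by
        refine HomZ.add' (h2 i) ?_
        have e2 := HomZ.mul' (p := h) (q := g₁ i) (d := (k : ℤ)) (e := F.β i - p)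
          (Or.inr ⟨k, rfl, hhom⟩) (h1 i)
        rwa [show (k : ℤ) + (F.β i - p) = F.β i - q by omega] at e2)
      (fun i => by
        rw [map_add, map_mul, hev]
        have e3 := congrFun hcd i
        simp only [Pi.add_apply, Pi.smul_apply, smul_eq_mul, Pi.zero_apply] at e3
        have e4 : c * eval w (g₁ i) + d * eval w (g₂ i) = 0 := e3
        field_simp
        linear_combination e4)
    have := hmax _ _ this
    omega

end Pool.Agent.H106R3.VB
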