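import Pool.Agent.H106R3.VB.Gro

/-!
# Large jumps through every point

Grothendieck's theorem on every line through a point, and the resulting form of the criterion
`H960VB.Bundle2.main_subspace`.
-/

set_option autoImplicit false

open MvPolynomial

namespace Pool.Agent.H106R3.VB

open H960VB

/-- parametrisation of the line through `P` and `Q`. -/
noncomputable def lineMap {N : ℕ} (P Q : Fin N → ℂ) : (Fin 2 → ℂ) →ₗ[ℂ] (Fin N → ℂ) where
  toFun z := z 0 • P + z 1 • Q
  map_add' x y := by
    simp only [Pi.add_apply, add_smul]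
    abel
  map_smul' c x := by
    simp only [Pi.smul_apply, smul_eq_mul, mul_smul, smul_add, RingHom.id_apply]

theorem lineMap_injective {N : ℕ} {P Q : Fin N → ℂ} (h : LinearIndependent ℂ ![P, Q]) :
    Function.Injective (lineMap P Q) := by
  rw [injective_iff_map_eq_zero]
  intro z hz
  rw [LinearIndependent.pair_iff] at h
  have h1 := h (z 0) (z 1) hz
  funext i
  fin_cases i
  · exact h1.1
  · exact h1.2

/-- Grothendieck's theorem for the restriction of a rank two bundle to a line. -/
theorem splitsOn_exists {n : ℕ} (E : Bundle2 n) {P Q : Fin (n + 1) → ℂ}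
    (h : LinearIndependent ℂ ![P, Q]) : ∃ p q : ℤ, E.SplitsOn P Q p q := by
  obtain ⟨p, q, g₁, g₂, h1, h2, h3⟩ :=
    grothendieck (E.pull (m := 1) (lineMap P Q) (lineMap_injective h))
  refine ⟨p, q, g₁, g₂, h1, h2, fun z hz => ?_⟩
  have h4 := h3 z hz
  have h5 : (E.pull (m := 1) (lineMap P Q) (lineMap_injective h)).fib z =
      E.fib (z 0 • P + z 1 • Q) := Bundle2.fib_pull E _ _ z
  rw [h5] at h4
  exact h4

end Pool.Agent.H106R3.VB
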